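import Pool.Agent.H77.RT.All2

/-!
# Injectivity of the Radon transform in the plane, direction by direction

A measurable `f` on the plane is zero almost everywhere if its integral over almost every line is zero
and if for every direction `n` (with an exponent `N` which may depend on `n` in an arbitrary way) the
weighted integral `∫ |f(x)| (1 + |n·x|)^(-N) dx` is finite, or finite in mean near `n`; in countably many
exceptional directions it is enough that `f` is integrable on almost every line.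
-/

set_option autoImplicit false

namespace Pool.Agent.Results.MP_9de3af_an.DirectionwiseIntegrability

open MeasureTheory
open scoped ENNReal

/-- `∫ |f(x)| (1 + |n·x|)^(-N) dx` (over the plane), a value in `[0, ∞]`. -/
noncomputable def weighted (f : ℝ × ℝ → ℂ) (N : ℕ) (n : ℝ × ℝ) : ℝ≥0∞ :=
  ∫⁻ x : ℝ × ℝ, ENNReal.ofReal (‖f x‖ / (1 + |n.1 * x.1 + n.2 * x.2|) ^ N)

/-- The condition on the direction `n`: for some `N` (depending on `n`) the weighted integral is finite
at `n`, or it is integrable over some ball around `n`. -/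
def DirIntegrable (f : ℝ × ℝ → ℂ) (n : ℝ × ℝ) : Prop :=
  (∃ N : ℕ, weighted f N n < ⊤) ∨
    ∃ (N : ℕ) (ε : ℝ), 0 < ε ∧ ∫⁻ m in Metric.ball n ε, weighted f N m < ⊤

/-- `f` is integrable on the line `{x | n·x = p}` for almost every `p` (the line is parametrised by
`s ↦ p n / |n|² + s (-n.2, n.1)`, for `n ≠ 0`). -/
def LinesIntegrable (f : ℝ × ℝ → ℂ) (n : ℝ × ℝ) : Prop :=
  ∀ᵐ p : ℝ, Integrable fun s : ℝ => f (p * n.1 / (n.1 ^ 2 + n.2 ^ 2) - s * n.2,
    p * n.2 / (n.1 ^ 2 + n.2 ^ 2) + s * n.1)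

/-- The integral of `f` over the line `{x | n·x = 1}`, parametrised by
`s ↦ n / |n|² + s (-n.2, n.1)` (for `n ≠ 0`; this is arclength up to the factor `1/|n|`). -/
noncomputable def lineIntegral (f : ℝ × ℝ → ℂ) (n : ℝ × ℝ) : ℂ :=
  ∫ s : ℝ, f (n.1 / (n.1 ^ 2 + n.2 ^ 2) - s * n.2, n.2 / (n.1 ^ 2 + n.2 ^ 2) + s * n.1)

/-- Injectivity of the Radon transform under integrability conditions on each single direction. -/
theorem result (f : ℝ × ℝ → ℂ) (hf : Measurable f) (Z : Set (ℝ × ℝ)) (hZ : Z.Countable)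
    (hdir : ∀ n : ℝ × ℝ, n ≠ 0 → DirIntegrable f n ∨
      ((∃ z ∈ Z, z ≠ 0 ∧ n.1 * z.2 = n.2 * z.1) ∧ LinesIntegrable f n))
    (hline : ∀ᵐ n : ℝ × ℝ, lineIntegral f n = 0) :
    f =ᵐ[volume] 0 :=
  Pool.Agent.H77.RT.all2 f hf Z hZ hdir hline

/-- The classical class `∫ |f(x)| / (1 + |x|) dx < ∞` satisfies the condition in every direction. -/
theorem classical_class (f : ℝ × ℝ → ℂ) (hf : Measurable f)
    (h : ∫⁻ x : ℝ × ℝ, ENNReal.ofReal (‖f x‖ / (1 + |x.1| + |x.2|)) < ⊤) (n : ℝ × ℝ) :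
    DirIntegrable f n :=
  Pool.Agent.H77.RT.known f hf h n

end Pool.Agent.Results.MP_9de3af_an.DirectionwiseIntegrability
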