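import Pool.Agent.H77.RT.All3

/-!
# The spectrum of a counterexample to the injectivity of the Radon transform

Let `f` be continuous and polynomially bounded on the plane, integrable on every line with integral zero.
The directions in which the Fourier transform of `f` does not vanish form a closed set of directions
without interior; near each of them there are uncountably many such directions `n` with
`∫ |f(x)| (1 + |n·x|)^(-N) dx = ∞` for every `N`; if there is none, then `f = 0`.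
-/

set_option autoImplicit false

namespace Pool.Agent.Results.MP_9de3af_an.SpectrumOfCounterexamples

open MeasureTheory
open scoped ENNReal ContDiff

/-- The Fourier integral `∫ Φ(m) e^{-2πi m·x} dm` on the plane. -/
noncomputable def fourier (Φ : ℝ × ℝ → ℂ) (x : ℝ × ℝ) : ℂ :=
  ∫ m : ℝ × ℝ, Φ m * Complex.exp (((-2 * Real.pi * (m.1 * x.1 + m.2 * x.2) : ℝ) : ℂ) * Complex.I)

/-- The singular directions of `f`: those `n ≠ 0` such that the Fourier transform of `f`, as a tempered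
distribution, does not vanish on the open cone `{m ≠ 0 : |m₁ n₂ - m₂ n₁| < ε |m|}` around the line
`ℝ n`, for any `ε > 0`. -/
def singularDirections (f : ℝ × ℝ → ℂ) : Set (ℝ × ℝ) :=
  {n | n ≠ 0 ∧ ∀ ε : ℝ, 0 < ε → ∃ Φ : ℝ × ℝ → ℂ, (ContDiff ℝ ∞ Φ ∧ HasCompactSupport Φ) ∧
    (∀ m ∈ tsupport Φ, m ≠ 0 ∧ |m.1 * n.2 - m.2 * n.1| < ε * ‖m‖) ∧
      ∫ x : ℝ × ℝ, f x * fourier Φ x ≠ 0}

/-- `∫ |f(x)| (1 + |n·x|)^(-N) dx` (over the plane), a value in `[0, ∞]`. -/
noncomputable def weighted (f : ℝ × ℝ → ℂ) (N : ℕ) (n : ℝ × ℝ) : ℝ≥0∞ :=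
  ∫⁻ x : ℝ × ℝ, ENNReal.ofReal (‖f x‖ / (1 + |n.1 * x.1 + n.2 * x.2|) ^ N)

/-- The spectrum of a function which satisfies (i), (ii), (iii) of the problem and has Radon transform
zero. -/
theorem result (f : ℝ × ℝ → ℂ) (hcont : Continuous f)
    (hgrowth : ∃ (c : ℝ) (m : ℕ), ∀ x, ‖f x‖ ≤ c * (1 + ‖x‖ ^ m))
    (hline : ∀ x v : ℝ × ℝ, v ≠ 0 →
      Integrable (fun s : ℝ => f (x + s • v)) ∧ ∫ s : ℝ, f (x + s • v) = 0) :
    IsClosed (singularDirections f ∪ {0}) ∧
    interior (singularDirections f) = ∅ ∧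
    (∀ n ∈ singularDirections f, ∀ δ : ℝ, 0 < δ → ∀ Z : Set (ℝ × ℝ), Z.Countable →
      ∃ n' ∈ singularDirections f, ‖n' - n‖ < δ ∧
        (∀ z ∈ Z, z ≠ 0 → n'.1 * z.2 ≠ n'.2 * z.1) ∧ ∀ N : ℕ, weighted f N n' = ⊤) ∧
    (singularDirections f = ∅ → ∀ x, f x = 0) :=
  Pool.Agent.H77.RT.all3 f ⟨hcont, hgrowth, hline⟩

end Pool.Agent.Results.MP_9de3af_an.SpectrumOfCounterexamples
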